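import Pool.Agent.R237.LZ.Stm

/-!
# Project LZ, piece SER (helper973)
-/

set_option autoImplicit false

open MeasureTheory Filter Topology

namespace Pool.Agent.R973.LZ

open Pool.Agent.R237.LZ

/-- the coefficient -/
noncomputable def cf (α : ℝ) (j k : ℕ) : ℝ := (-1) ^ k * (k : ℝ) ^ j * ((k.factorial : ℝ) ^ (-α))

/-- the bound -/
noncomputable def bd (j : ℕ) (R : ℝ) (k : ℕ) : ℝ := (j.factorial : ℝ) * ((Real.exp 1 * R) ^ k / k.factorial)

lemma bd_summable (j : ℕ) (R : ℝ) : Summable (bd j R) := by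
  unfold bd
  exact (Real.summable_pow_div_factorial (Real.exp 1 * R)).mul_left _

lemma cf_le (α : ℝ) (hα : 1 ≤ α) (j k : ℕ) :
    |cf α j k| ≤ (k : ℝ) ^ j * (k.factorial : ℝ)⁻¹ := by
  unfold cf
  have h1 : (1 : ℝ) ≤ (k.factorial : ℝ) := by exact_mod_cast Nat.one_le_iff_ne_zero.2 (Nat.factorial_ne_zero k)
  have h2 : ((k.factorial : ℝ) ^ (-α)) ≤ (k.factorial : ℝ)⁻¹ := by
    rw [← Real.rpow_neg_one]
    exact Real.rpow_le_rpow_of_exponent_le h1 (by linarith)
  have h3 : 0 ≤ ((k.factorial : ℝ) ^ (-α)) := Real.rpow_nonneg (by positivity) _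
  rw [abs_mul, abs_mul, abs_pow, abs_neg, abs_one, one_pow, one_mul, abs_of_nonneg h3,
    abs_of_nonneg (by positivity : (0 : ℝ) ≤ (k : ℝ) ^ j)]
  exact mul_le_mul_of_nonneg_left h2 (by positivity)

lemma pow_le (j k : ℕ) : (k : ℝ) ^ j ≤ (j.factorial : ℝ) * Real.exp 1 ^ k := by
  have h := Real.pow_div_factorial_le_exp (k : ℝ) (by positivity) j
  have h2 : Real.exp (k : ℝ) = Real.exp 1 ^ k := by
    rw [← Real.exp_nat_mul, mul_one]
  rw [h2, div_le_iff₀ (by positivity)] at h
  linarith

lemma term_le (α : ℝ) (hα : 1 ≤ α) (j k : ℕ) (x R : ℝ) (hx : |x| ≤ R) :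
    ‖cf α j k * x ^ k‖ ≤ bd j R k := by
  have hR : 0 ≤ R := (abs_nonneg x).trans hx
  rw [Real.norm_eq_abs, abs_mul, abs_pow]
  have h1 := cf_le α hα j k
  have h2 := pow_le j k
  calc |cf α j k| * |x| ^ k ≤ ((k : ℝ) ^ j * (k.factorial : ℝ)⁻¹) * R ^ k := by
        gcongr
    _ ≤ (((j.factorial : ℝ) * Real.exp 1 ^ k) * (k.factorial : ℝ)⁻¹) * R ^ k := by
        gcongr
    _ = bd j R k := by
        unfold bd
        rw [mul_pow]
        ring

lemma hs_eq (α : ℝ) (j : ℕ) (x : ℝ) : hs α j x = ∑' k, cf α j k * x ^ k := rfl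

lemma cf_succ (α : ℝ) (j k : ℕ) : cf α (j + 1) k = cf α j k * k := by
  unfold cf
  ring

lemma t_SER : S_SER := by
  intro α hα
  refine ⟨?_, ?_, ?_, ?_⟩
  · intro j v
    have key := hasDerivAt_tsum_of_isPreconnected (𝕜 := ℝ) (F := ℝ)
      (g := fun k (w : ℝ) => cf α j k * Real.exp w ^ k)
      (g' := fun k (w : ℝ) => cf α (j + 1) k * Real.exp w ^ k)
      (u := bd (j + 1) (Real.exp (v + 1))) (t := Set.Iio (v + 1)) (y₀ := v) (y := v)
      (bd_summable _ _) isOpen_Iio isPreconnected_Iio ?_ ?_ ?_ ?_ ?_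
    · exact key
    · intro k w _
      have h1 : HasDerivAt (fun w : ℝ => Real.exp w ^ k) (k * Real.exp w ^ k) w := by
        have h2 : (fun w : ℝ => Real.exp w ^ k) = fun w : ℝ => Real.exp (k * w) := by
          funext w
          rw [Real.exp_nat_mul]
        rw [h2, ← Real.exp_nat_mul]
        have h3 : HasDerivAt (fun w : ℝ => (k : ℝ) * w) ((k : ℝ) * 1) w :=
          (hasDerivAt_id w).const_mul (k : ℝ)
        have h4 := h3.exp
        convert h4 using 1
        ring
      have h5 := h1.const_mul (cf α j k)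
      have h6 : cf α (j + 1) k * Real.exp w ^ k = cf α j k * (k * Real.exp w ^ k) := by
        rw [cf_succ]
        ring
      rw [h6]
      exact h5
    · intro k w hw
      refine term_le α hα (j + 1) k _ _ ?_
      rw [abs_of_pos (Real.exp_pos _)]
      exact Real.exp_le_exp.2 (le_of_lt hw)
    · simp
    · refine Summable.of_norm_bounded (bd_summable j (Real.exp v)) ?_
      intro k
      refine term_le α hα j k _ _ ?_
      rw [abs_of_pos (Real.exp_pos _)]
    · simp
  · intro j
    rw [continuous_iff_continuousAt]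
    intro x
    have hc : ContinuousOn (fun x : ℝ => ∑' k, cf α j k * x ^ k) (Metric.ball x 1) := by
      refine continuousOn_tsum (u := bd j (|x| + 1)) ?_ (bd_summable _ _) ?_
      · intro k
        fun_prop
      · intro k y hy
        refine term_le α hα j k _ _ ?_
        rw [Metric.mem_ball, Real.dist_eq] at hy
        have : |y| ≤ |y - x| + |x| := by
          calc |y| = |(y - x) + x| := by ring_nf
            _ ≤ _ := abs_add_le _ _
        linarith
    exact hc.continuousAt (Metric.ball_mem_nhds x one_pos)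
  · intro j hj
    refine ⟨∑' k, bd j 1 k, ?_⟩
    intro x hx0 hx1
    rw [hs_eq, ← Real.norm_eq_abs]
    refine tsum_of_norm_bounded (g := fun k => bd j 1 k * x) ((bd_summable j 1).hasSum.mul_right x) ?_
    intro k
    rcases Nat.eq_zero_or_pos k with rfl | hk
    · have : cf α j 0 = 0 := by
        unfold cf
        simp [Nat.one_le_iff_ne_zero.1 hj]
      rw [this]
      simp only [zero_mul, norm_zero]
      have : 0 ≤ bd j 1 0 := by unfold bd; positivity
      positivity
    · have h1 := term_le α hα j k 1 1 (by simp)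
      rw [one_pow, mul_one] at h1
      rw [norm_mul, norm_pow, Real.norm_eq_abs x, abs_of_pos hx0]
      have h2 : x ^ k ≤ x := pow_le_of_le_one hx0.le hx1 (by omega)
      exact mul_le_mul h1 h2 (by positivity) ((norm_nonneg _).trans h1)
  · rw [hs_eq, tsum_eq_single 0]
    · unfold cf
      simp
    · intro k hk
      simp [hk]

end Pool.Agent.R973.LZ
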